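import Mathlib

/-!
# Pairs of integers and the polynomials `(x^q + (q² - 1) x) / q`, `(x^p - x) / p`
-/

set_option autoImplicit false

open scoped BigOperators

namespace Pool.Agent.U259.KQ

/-- `x ↦ x^q` is injective modulo a prime `r` with `q ∤ r - 1` -/
theorem pow_inj {r q : ℕ} [hr : Fact r.Prime] (hq : q.Prime) (hlt : ¬ q ∣ r - 1) {a z : ZMod r}
    (h : a ^ q = z ^ q) : a = z := by
  have hq0 : q ≠ 0 := hq.ne_zero
  by_cases hz : z = 0
  · subst hz
    rw [zero_pow hq0] at h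
    exact pow_eq_zero_iff hq0 |>.1 h
  by_cases ha : a = 0
  · subst ha
    rw [zero_pow hq0] at h
    exact (hz (pow_eq_zero_iff hq0 |>.1 h.symm)).elim
  have hco : (Nat.card (ZMod r)ˣ).Coprime q := by
    rw [Nat.card_eq_fintype_card, ZMod.card_units_eq_totient, Nat.totient_prime hr.out]
    exact Nat.Coprime.symm ((Nat.Prime.coprime_iff_not_dvd hq).2 hlt)
  have h1 : powCoprime hco (Units.mk0 a ha) = powCoprime hco (Units.mk0 z hz) := by
    rw [powCoprime_apply, powCoprime_apply]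
    ext
    simpa using h
  have h2 := (powCoprime hco).injective h1
  have h3 := congrArg Units.val h2
  simpa using h3

/-- the choice of the multiplier -/
theorem choice {r q : ℕ} [hr : Fact r.Prime] (hq : q.Prime) (hne : r ≠ q)
    {a z : ZMod r} (h23 : q = 2 → r = 3 → a * z = 0)
    (h : a ≠ z) : ∃ n : ZMod r, n ≠ 0 ∧
      (n * a) ^ q - (n * z) ^ q + ((q : ZMod r) ^ 2 - 1) * (n * a - n * z) ≠ 0 := by
  by_contra hcon
  push Not at hcon
  have hD : a - z ≠ 0 := sub_ne_zero.2 h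
  have hq0 : (q : ZMod r) ≠ 0 := by
    intro h5
    rw [ZMod.natCast_eq_zero_iff] at h5
    exact hne ((Nat.prime_dvd_prime_iff_eq hr.out hq).1 h5)
  have h1 := hcon 1 one_ne_zero
  rw [one_mul, one_mul] at h1
  by_cases hB : a ^ q - z ^ q = 0
  · have h2 : q ∣ r - 1 := by
      by_contra h3
      exact h (pow_inj hq h3 (sub_eq_zero.1 hB))
    rw [hB, zero_add] at h1
    have h3 : ((q : ZMod r) - 1) * ((q : ZMod r) + 1) = 0 := by
      rcases mul_eq_zero.1 h1 with h4 | h4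
      · linear_combination h4
      · exact (hD h4).elim
    have hq2 := hq.two_le
    have hr2 := hr.out.two_le
    have hle := Nat.le_of_dvd (by omega) h2
    rcases mul_eq_zero.1 h3 with h4 | h4
    · have h5 : ((q - 1 : ℕ) : ZMod r) = 0 := by
        rw [Nat.cast_sub hq.one_le, Nat.cast_one, h4]
      rw [ZMod.natCast_eq_zero_iff] at h5
      have := Nat.le_of_dvd (by omega) h5
      omega
    · have h5 : ((q + 1 : ℕ) : ZMod r) = 0 := by
        rw [Nat.cast_add, Nat.cast_one, h4]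
      rw [ZMod.natCast_eq_zero_iff] at h5
      have h6 := Nat.le_of_dvd (by omega) h5
      have h7 : r = q + 1 := by omega
      rcases hq.eq_two_or_odd' with h8 | h8
      · subst h8
        rcases mul_eq_zero.1 (h23 rfl (by omega)) with h9 | h9
        · rw [h9, zero_pow two_ne_zero, zero_sub, neg_eq_zero] at hB
          exact h (h9.trans (pow_eq_zero_iff two_ne_zero |>.1 hB).symm)
        · rw [h9, zero_pow two_ne_zero, sub_zero] at hB
          exact h ((pow_eq_zero_iff two_ne_zero |>.1 hB).trans h9.symm)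
      · rcases hr.out.eq_two_or_odd' with h9 | h9
        · omega
        · exfalso
          obtain ⟨i, hi⟩ := h8
          obtain ⟨j, hj⟩ := h9
          omega
  · have h2 : ∀ n : ZMod r, n ^ q = n := by
      intro n
      by_cases hn : n = 0
      · rw [hn, zero_pow hq.ne_zero]
      have h3 := hcon n hn
      rw [mul_pow, mul_pow] at h3
      have h4 : (n ^ q - n) * (a ^ q - z ^ q) = 0 := by
        linear_combination h3 - n * h1
      rcases mul_eq_zero.1 h4 with h5 | h5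
      · exact sub_eq_zero.1 h5
      · exact (hB h5).elim
    rw [h2 a, h2 z] at h1
    have h3 : (q : ZMod r) ^ 2 * (a - z) = 0 := by linear_combination h1
    rcases mul_eq_zero.1 h3 with h4 | h4
    · exact hq0 (pow_eq_zero_iff (two_ne_zero) |>.1 h4)
    · exact hD h4

/-- the sum `∑ a^i z^(M-1-i)` -/
def G (M : ℕ) (a z : ℤ) : ℤ := ∑ i ∈ Finset.range M, a ^ i * z ^ (M - 1 - i)

theorem pow_sub (M : ℕ) (a z : ℤ) : a ^ M - z ^ M = (a - z) * G M a z := by
  unfold G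
  rw [mul_comm]
  exact ((Commute.all a z).geom_sum₂_mul M).symm

theorem G_mod (q : ℕ) (M : ℕ) {a z : ℤ} (h : (q : ℤ) ∣ a - z) :
    ((G M a z : ℤ) : ZMod q) = M * (z : ZMod q) ^ (M - 1) := by
  have h1 : (a : ZMod q) = z := by
    have h2 := (ZMod.intCast_zmod_eq_zero_iff_dvd (a - z) q).2 h
    push_cast at h2
    exact sub_eq_zero.1 h2
  unfold G
  push_cast
  rw [h1]
  have h3 : ∀ i ∈ Finset.range M, (z : ZMod q) ^ i * (z : ZMod q) ^ (M - 1 - i) =
      (z : ZMod q) ^ (M - 1) := by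
    intro i hi
    rw [Finset.mem_range] at hi
    rw [← pow_add]
    congr 1
    omega
  rw [Finset.sum_congr rfl h3, Finset.sum_const, Finset.card_range, nsmul_eq_mul]

theorem cancel {q v : ℕ} (hq : q.Prime) {x b : ℤ} (hb : ((b : ℤ) : ZMod q) ≠ 0)
    (h : (q : ℤ) ^ v ∣ x * b) : (q : ℤ) ^ v ∣ x := by
  have : Fact q.Prime := ⟨hq⟩
  have h1 : ¬ (q : ℤ) ∣ b := fun h2 => hb ((ZMod.intCast_zmod_eq_zero_iff_dvd b q).2 h2)
  have h2 : IsCoprime ((q : ℤ) ^ v) b :=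
    IsCoprime.pow_left ((Nat.prime_iff_prime_int.1 hq).coprime_iff_not_dvd.2 h1)
  exact h2.dvd_of_dvd_mul_right h

/-- one factor `q` is lost -/
theorem drop {q v n : ℕ} (hq : q.Prime) (hn : ¬ q ∣ n) {a z A Z c : ℤ}
    (hc : (c : ZMod q) = -1)
    (haz : (q : ℤ) ∣ a - z) (hv : ¬ (q : ℤ) ^ (v + 1) ∣ a - z)
    (hA : (q : ℤ) * A = (n * a) ^ q + c * (n * a))
    (hZ : (q : ℤ) * Z = (n * z) ^ q + c * (n * z)) :
    ¬ (q : ℤ) ^ v ∣ A - Z := by
  have : Fact q.Prime := ⟨hq⟩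
  intro h
  apply hv
  have h1 : (q : ℤ) ^ (v + 1) ∣ (q : ℤ) * (A - Z) := by
    rw [pow_succ']
    exact mul_dvd_mul_left _ h
  have h2 : (q : ℤ) * (A - Z) = (a - z) * (n * (G q (n * a) (n * z) + c)) := by
    have e1 := pow_sub q (n * a) (n * z)
    linear_combination hA - hZ + e1
  rw [h2] at h1
  refine cancel hq ?_ h1
  push_cast
  have h3 : (q : ℤ) ∣ (n : ℤ) * a - n * z := by
    rw [← mul_sub]
    exact haz.mul_left _
  rw [G_mod q _ h3, CharP.cast_eq_zero (ZMod q) q, zero_mul, zero_add, hc, mul_neg, mul_one,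
    neg_ne_zero]
  exact fun h5 => hn ((ZMod.natCast_eq_zero_iff n q).1 h5)

/-- a set of pairs of integers closed under the operations -/
structure Cld (p : ℕ) (Pr : ℤ → ℤ → Prop) : Prop where
  cyc : ∀ n : ℕ, 0 < n → ¬ p ∣ n → Pr n n
  mul : ∀ a z a' z' : ℤ, Pr a z → Pr a' z' → Pr (a * a') (z * z')
  wr : ∀ q : ℕ, q.Prime → q ≠ p → ∀ a z : ℤ, Pr a z → ∃ A Z : ℤ, Pr A Z ∧
    (q : ℤ) * A = a ^ q + ((q : ℤ) ^ 2 - 1) * a ∧ (q : ℤ) * Z = z ^ q + ((q : ℤ) ^ 2 - 1) * z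
  wrp : ∀ a z : ℤ, Pr a z → ∃ A Z : ℤ, Pr A Z ∧
    (p : ℤ) * A = a ^ p + (-1) * a ∧ (p : ℤ) * Z = z ^ p + (-1) * z
  fac : p = 3 → ∀ n : ℕ, 0 < n → ¬ p ∣ n → ∃ h : ℤ, Pr h h ∧ 3 * h = (n : ℤ) ^ 2 - 1

theorem Cld.scale {p : ℕ} {Pr : ℤ → ℤ → Prop} (hC : Cld p Pr) (n : ℕ) (h0 : 0 < n)
    (hn : ¬ p ∣ n) (a z : ℤ) (h : Pr a z) : Pr (n * a) (n * z) :=
  hC.mul _ _ _ _ (hC.cyc n h0 hn) h

theorem exists_pow {q : ℕ} (hq : q.Prime) {x : ℤ} (hx : x ≠ 0) :
    ∃ v : ℕ, ¬ (q : ℤ) ^ (v + 1) ∣ x := by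
  by_contra h
  push Not at h
  have h2 : ∀ v : ℕ, q ^ (v + 1) ≤ x.natAbs := by
    intro v
    have h3 := Int.natAbs_dvd_natAbs.2 (h v)
    rw [Int.natAbs_pow, Int.natAbs_natCast] at h3
    exact Nat.le_of_dvd (Int.natAbs_pos.2 hx) h3
  have h4 := h2 x.natAbs
  have h5 : x.natAbs + 1 < q ^ (x.natAbs + 1) := Nat.lt_pow_self hq.one_lt
  omega

theorem exists_pow' {x : ℤ} (hx : x ≠ 0) : ∃ v : ℕ, ¬ (3 : ℤ) ^ (v + 1) ∣ x := by
  obtain ⟨v, hv⟩ := exists_pow Nat.prime_three hx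
  exact ⟨v, by exact_mod_cast hv⟩

/-- one more prime -/
theorem one_more {p : ℕ} (hp : p.Prime) {Pr : ℤ → ℤ → Prop} (hC : Cld p Pr)
    {q : ℕ} (hq : q.Prime) (hqp : q ≠ p) (S : Finset ℕ) (hS : ∀ r ∈ S, r.Prime)
    (hqS : q ∉ S) (h23 : q = 2 → 3 ∈ S → p = 3) :
    ∀ (v : ℕ) (a z : ℤ), Pr a z → ¬ (q : ℤ) ^ (v + 1) ∣ a - z →
      (∀ r ∈ S, ¬ (r : ℤ) ∣ a - z) → (3 ∈ S → p = 3 → (3 : ℤ) ∣ a * z) →
      ∃ a' z' : ℤ, Pr a' z' ∧ (∀ r ∈ insert q S, ¬ (r : ℤ) ∣ a' - z') ∧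
        (3 ∈ S → p = 3 → (3 : ℤ) ∣ a' * z') := by
  intro v
  induction v with
  | zero =>
    intro a z h h1 h2 hI
    refine ⟨a, z, h, fun r hr => ?_, hI⟩
    rcases Finset.mem_insert.1 hr with rfl | hr
    · rwa [zero_add, pow_one] at h1
    · exact h2 r hr
  | succ v ih =>
    intro a z h h1 h2 hI
    by_cases haz : (q : ℤ) ∣ a - z
    swap
    · refine ⟨a, z, h, fun r hr => ?_, hI⟩
      rcases Finset.mem_insert.1 hr with rfl | hr
      · exact haz
      · exact h2 r hr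
    -- the multiplier
    have hch : ∀ r : ℕ, ∃ k : ℕ, r ∈ S → ¬ r ∣ k ∧ ∀ n : ℕ, n ≡ k [MOD r] →
        ¬ (r : ℤ) ∣ ((n : ℤ) * a) ^ q - (n * z) ^ q + ((q : ℤ) ^ 2 - 1) * (n * a - n * z) := by
      intro r
      by_cases hr : r ∈ S
      · have : Fact r.Prime := ⟨hS r hr⟩
        have : NeZero r := ⟨(hS r hr).ne_zero⟩
        obtain ⟨k, hk0, hk⟩ := choice (r := r) hq (fun h3 => hqS (h3 ▸ hr))
          (a := (a : ZMod r)) (z := (z : ZMod r)) (by
            intro h3 h4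
            subst h4
            have h5 := (ZMod.intCast_zmod_eq_zero_iff_dvd _ 3).2 (hI hr (h23 h3 hr))
            push_cast at h5
            exact h5)
          (fun h3 => h2 r hr ((ZMod.intCast_zmod_eq_zero_iff_dvd _ r).1 (by
            push_cast
            rw [h3, sub_self])))
        refine ⟨k.val, fun _ => ⟨fun h3 => hk0 ?_, fun n hn h3 => hk ?_⟩⟩
        · rw [← ZMod.natCast_eq_zero_iff, ZMod.natCast_val, ZMod.cast_id] at h3
          exact h3
        · have h4 : (n : ZMod r) = k := by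
            rw [(ZMod.natCast_eq_natCast_iff n k.val r).2 hn, ZMod.natCast_val, ZMod.cast_id]
          have h5 := (ZMod.intCast_zmod_eq_zero_iff_dvd _ r).2 h3
          push_cast at h5
          rw [h4] at h5
          exact h5
      · exact ⟨0, fun h3 => (hr h3).elim⟩
    choose k hk using hch
    have hcrt : ∃ n : ℕ, (∀ r ∈ S, n ≡ k r [MOD r]) ∧ n ≡ 1 [MOD q] ∧
        (p ∉ S → n ≡ 1 [MOD p]) := by
      let T : Finset ℕ := insert p (insert q S)
      have hT : ∀ r ∈ T, r.Prime := by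
        intro r hr
        rcases Finset.mem_insert.1 hr with rfl | hr
        · exact hp
        rcases Finset.mem_insert.1 hr with rfl | hr
        · exact hq
        · exact hS r hr
      obtain ⟨n, hn⟩ := Nat.chineseRemainderOfFinset (fun r => if r ∈ S then k r else 1)
        (fun r => r) T (fun r hr => (hT r hr).ne_zero) (by
          intro r hr s hs hrs
          exact (Nat.coprime_primes (hT r hr) (hT s hs)).2 hrs)
      refine ⟨n, fun r hr => ?_, ?_, fun hpS => ?_⟩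
      · have h3 := hn r (Finset.mem_insert_of_mem (Finset.mem_insert_of_mem hr))
        rwa [if_pos hr] at h3
      · have h3 := hn q (Finset.mem_insert_of_mem (Finset.mem_insert_self _ _))
        rwa [if_neg hqS] at h3
      · have h3 := hn p (Finset.mem_insert_self _ _)
        rwa [if_neg hpS] at h3
    obtain ⟨n, hn1, hn2, hn3⟩ := hcrt
    have hnp : ¬ p ∣ n := by
      intro h3
      by_cases hpS : p ∈ S
      · apply (hk p hpS).1
        have h4 : k p ≡ 0 [MOD p] := (hn1 p hpS).symm.trans ((Nat.modEq_zero_iff_dvd).2 h3)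
        exact (Nat.modEq_zero_iff_dvd).1 h4
      · have h4 : 1 ≡ 0 [MOD p] := (hn3 hpS).symm.trans ((Nat.modEq_zero_iff_dvd).2 h3)
        exact hp.one_lt.ne' (Nat.dvd_one.1 ((Nat.modEq_zero_iff_dvd).1 h4))
    have hnq : ¬ q ∣ n := by
      intro h3
      have h4 : 1 ≡ 0 [MOD q] := hn2.symm.trans ((Nat.modEq_zero_iff_dvd).2 h3)
      exact hq.one_lt.ne' (Nat.dvd_one.1 ((Nat.modEq_zero_iff_dvd).1 h4))
    have hn0 : 0 < n := Nat.pos_of_ne_zero fun h3 => hnp (h3 ▸ dvd_zero p)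
    obtain ⟨A, Z, h3, h4, h5⟩ := hC.wr q hq hqp _ _ (hC.scale n hn0 hnp a z h)
    have : Fact q.Prime := ⟨hq⟩
    refine ih A Z h3 (drop hq hnq (c := (q : ℤ) ^ 2 - 1) (by simp) haz h1 h4 h5)
      (fun r hr h6 => ?_) (fun h3S hp3 => ?_)
    · refine (hk r hr).2 n (hn1 r hr) ?_
      have h7 : ((n : ℤ) * a) ^ q - (n * z) ^ q + ((q : ℤ) ^ 2 - 1) * (n * a - n * z) =
          (q : ℤ) * (A - Z) := by linear_combination h5 - h4
      rw [h7]
      exact h6.mul_left _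
    · have h3p : Prime (3 : ℤ) := Int.prime_three
      have hq3 : ¬ (3 : ℤ) ∣ q := by
        intro h6
        have h7 : 3 ∣ q := by exact_mod_cast h6
        exact hqp (((Nat.prime_dvd_prime_iff_eq Nat.prime_three hq).1 h7).symm.trans hp3.symm)
      rcases h3p.dvd_or_dvd (hI h3S hp3) with h6 | h6
      · have h7 : (3 : ℤ) ∣ (q : ℤ) * A := by
          rw [h4]
          exact dvd_add ((h6.mul_left _).pow hq.ne_zero) ((h6.mul_left _).mul_left _)
        exact ((h3p.dvd_or_dvd h7).resolve_left hq3).mul_right _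
      · have h7 : (3 : ℤ) ∣ (q : ℤ) * Z := by
          rw [h5]
          exact dvd_add ((h6.mul_left _).pow hq.ne_zero) ((h6.mul_left _).mul_left _)
        exact ((h3p.dvd_or_dvd h7).resolve_left hq3).mul_left _

/-- the prime `p` -/
theorem one_p {p : ℕ} (hp : p.Prime) {Pr : ℤ → ℤ → Prop} (hC : Cld p Pr) :
    ∀ (v : ℕ) (a z : ℤ), Pr a z → ¬ (p : ℤ) ^ (v + 1) ∣ a - z →
      ∃ a' z' : ℤ, Pr a' z' ∧ ¬ (p : ℤ) ∣ a' - z' := by
  intro v
  induction v with
  | zero =>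
    intro a z h h1
    exact ⟨a, z, h, by rwa [zero_add, pow_one] at h1⟩
  | succ v ih =>
    intro a z h h1
    by_cases haz : (p : ℤ) ∣ a - z
    swap
    · exact ⟨a, z, h, haz⟩
    obtain ⟨A, Z, h3, h4, h5⟩ := hC.wrp a z h
    refine ih A Z h3 (drop hp (n := 1) (fun h => hp.one_lt.ne' (Nat.dvd_one.1 h)) (c := -1)
      (by simp) haz h1
      (by rw [Nat.cast_one, one_mul]; exact h4) (by rw [Nat.cast_one, one_mul]; exact h5))

/-- multipliers modulo `9` -/
theorem mult9 {A t : ℤ} (ht : t = 1 ∨ t = 2) (hA : ¬ (3 : ℤ) ∣ A) :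
    ∃ n : ℕ, 0 < n ∧ ¬ 3 ∣ n ∧ (9 : ℤ) ∣ n * A - t := by
  have h1 : A % 9 = 1 ∨ A % 9 = 2 ∨ A % 9 = 4 ∨ A % 9 = 5 ∨ A % 9 = 7 ∨ A % 9 = 8 := by omega
  rcases ht with rfl | rfl <;> rcases h1 with h | h | h | h | h | h
  · exact ⟨1, by omega, by omega, by push_cast; omega⟩
  · exact ⟨5, by omega, by omega, by push_cast; omega⟩
  · exact ⟨7, by omega, by omega, by push_cast; omega⟩
  · exact ⟨2, by omega, by omega, by push_cast; omega⟩
  · exact ⟨4, by omega, by omega, by push_cast; omega⟩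
  · exact ⟨8, by omega, by omega, by push_cast; omega⟩
  · exact ⟨2, by omega, by omega, by push_cast; omega⟩
  · exact ⟨1, by omega, by omega, by push_cast; omega⟩
  · exact ⟨5, by omega, by omega, by push_cast; omega⟩
  · exact ⟨4, by omega, by omega, by push_cast; omega⟩
  · exact ⟨8, by omega, by omega, by push_cast; omega⟩
  · exact ⟨7, by omega, by omega, by push_cast; omega⟩

theorem three_loop {Pr : ℤ → ℤ → Prop} (hC : Cld 3 Pr) :
    ∀ (v : ℕ) (A Z : ℤ), Pr A Z → ¬ (3 : ℤ) ^ (v + 1) ∣ A - Z → (3 : ℤ) ∣ A - Z →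
      ¬ (3 : ℤ) ∣ A → ∃ a' z' : ℤ, Pr a' z' ∧ ¬ (3 : ℤ) ∣ a' - z' ∧ (3 : ℤ) ∣ a' * z' := by
  intro v
  induction v with
  | zero =>
    intro A Z _ h1 h2
    exact absurd h2 (by rwa [zero_add, pow_one] at h1)
  | succ v ih =>
    intro A Z h h1 h2 hA
    by_cases h9 : (9 : ℤ) ∣ A - Z
    · obtain ⟨n, hn0, hn3, hn⟩ := mult9 (Or.inr rfl) hA
      obtain ⟨A', Z', h3, h4, h5⟩ := hC.wrp _ _ (hC.scale n hn0 hn3 A Z h)
      push_cast at h4 h5
      obtain ⟨k, hk⟩ := hn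
      obtain ⟨l, hl⟩ := h9
      have eA : (n : ℤ) * A = 2 + 9 * k := by linarith
      have eZ : (n : ℤ) * Z = 2 + 9 * (k - n * l) := by linear_combination eA - (n : ℤ) * hl
      have fA : A' = 2 + 3 * (11 * k + 54 * k ^ 2 + 81 * k ^ 3 ) := by
        rw [eA] at h4
        linarith [show (3 : ℤ) * A' = (2 + 9 * k) ^ 3 + (-1) * (2 + 9 * k) from h4,
          show (2 + 9 * k : ℤ) ^ 3 + (-1) * (2 + 9 * k) =
            3 * (2 + 3 * (11 * k + 54 * k ^ 2 + 81 * k ^ 3)) by ring]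
      have fZ : Z' = 2 + 3 * (11 * (k - n * l) + 54 * (k - n * l) ^ 2 +
          81 * (k - n * l) ^ 3 ) := by
        rw [eZ] at h5
        linarith [show (3 : ℤ) * Z' = (2 + 9 * (k - n * l)) ^ 3 +
            (-1) * (2 + 9 * (k - n * l)) from h5,
          show (2 + 9 * (k - n * l) : ℤ) ^ 3 + (-1) * (2 + 9 * (k - n * l)) =
            3 * (2 + 3 * (11 * (k - n * l) + 54 * (k - n * l) ^ 2 +
              81 * (k - n * l) ^ 3)) by ring]
      refine ih A' Z' h3 ?_ ?_ ?_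
      · exact drop (q := 3) Nat.prime_three hn3 (c := -1) (by simp) (by exact_mod_cast h2)
          (by exact_mod_cast h1) (by exact_mod_cast h4) (by exact_mod_cast h5)
      · rw [fA, fZ]
        exact ⟨(11 * k + 54 * k ^ 2 + 81 * k ^ 3) - (11 * (k - n * l) + 54 * (k - n * l) ^ 2 +
          81 * (k - n * l) ^ 3), by ring⟩
      · rw [fA]
        omega
    · obtain ⟨n, hn0, hn3, hn⟩ := mult9 (Or.inl rfl) hA
      obtain ⟨A', Z', h3, h4, h5⟩ := hC.wrp _ _ (hC.scale n hn0 hn3 A Z h)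
      push_cast at h4 h5
      obtain ⟨k, hk⟩ := hn
      have eA : (n : ℤ) * A = 1 + 9 * k := by linarith
      have fA : A' = 3 * (2 * k + 27 * k ^ 2 + 81 * k ^ 3) := by
        rw [eA] at h4
        linarith [show (3 : ℤ) * A' = (1 + 9 * k) ^ 3 + (-1) * (1 + 9 * k) from h4,
          show (1 + 9 * k : ℤ) ^ 3 + (-1) * (1 + 9 * k) =
            3 * (3 * (2 * k + 27 * k ^ 2 + 81 * k ^ 3)) by ring]
      refine ⟨A', Z', h3, ?_, ?_⟩
      · have h6 := drop (q := 3) (v := 1) Nat.prime_three hn3 (c := -1) (by simp)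
          (by exact_mod_cast h2) (a := A) (z := Z) (by
            norm_num
            exact h9) (A := A') (Z := Z') (by exact_mod_cast h4) (by exact_mod_cast h5)
        rw [pow_one] at h6
        exact_mod_cast h6
      · rw [fA, mul_assoc]
        exact dvd_mul_right _ _

/-- the prime `3` for `p = 3` -/
theorem one_3 {Pr : ℤ → ℤ → Prop} (hC : Cld 3 Pr) {a z : ℤ} (h : Pr a z)
    (h1 : ¬ (3 : ℤ) ∣ a - z) :
    ∃ a' z' : ℤ, Pr a' z' ∧ ¬ (3 : ℤ) ∣ a' - z' ∧ (3 : ℤ) ∣ a' * z' := by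
  by_cases haz : (3 : ℤ) ∣ a * z
  · exact ⟨a, z, h, h1, haz⟩
  have ha : ¬ (3 : ℤ) ∣ a := fun h2 => haz (h2.mul_right _)
  have hz : ¬ (3 : ℤ) ∣ z := fun h2 => haz (h2.mul_left _)
  have hs : (3 : ℤ) ∣ a + z := by
    have ha' : a % 3 = 1 ∨ a % 3 = 2 := by omega
    have hz' : z % 3 = 1 ∨ z % 3 = 2 := by omega
    rcases ha' with h2 | h2 <;> rcases hz' with h3 | h3 <;> omega
  obtain ⟨n, hn0, hn3, hn⟩ : ∃ n : ℕ, 0 < n ∧ ¬ 3 ∣ n ∧ (n : ℤ) * (a + z) + 3 ≠ 0 := by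
    by_cases h2 : a + z = -3
    · exact ⟨2, by norm_num, by norm_num, by rw [h2]; norm_num⟩
    · exact ⟨1, by norm_num, by norm_num, fun h3 => h2 (by push_cast at h3; linarith)⟩
  obtain ⟨A, Z, h3, h4, h5⟩ := hC.wr 2 Nat.prime_two (by norm_num) _ _
    (hC.scale n hn0 hn3 a z h)
  push_cast at h4 h5
  have h6 : 2 * (A - Z) = n * (a - z) * (n * (a + z) + 3) := by
    linear_combination h4 - h5
  have hne : A - Z ≠ 0 := by
    intro h7
    rw [h7, mul_zero] at h6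
    rcases mul_eq_zero.1 h6.symm with h8 | h8
    · rcases mul_eq_zero.1 h8 with h9 | h9
      · have : n = 0 := by exact_mod_cast h9
        omega
      · exact h1 (h9 ▸ dvd_zero _)
    · exact hn h8
  obtain ⟨v, hv⟩ := exists_pow' hne
  refine three_loop hC v A Z h3 hv ?_ ?_
  · have h7 : (3 : ℤ) ∣ 2 * (A - Z) := by
      rw [h6]
      exact (dvd_add (hs.mul_left _) dvd_rfl).mul_left _
    omega
  · intro h7
    have h8 : (3 : ℤ) ∣ ((n : ℤ) * a) ^ 2 := by
      have h9 : ((n : ℤ) * a) ^ 2 = 2 * A - 3 * (n * a) := by linear_combination -h4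
      rw [h9]
      exact dvd_sub (h7.mul_left _) (dvd_mul_right _ _)
    rcases Int.prime_three.dvd_or_dvd (Int.prime_three.dvd_of_dvd_pow h8) with h9 | h9
    · exact hn3 (by exact_mod_cast h9)
    · exact ha h9

/-- separation at the primes of a finite set, starting from a set `T` -/
theorem sep {p : ℕ} (hp : p.Prime) {Pr : ℤ → ℤ → Prop} (hC : Cld p Pr) (T : Finset ℕ)
    (hT : ∀ r ∈ T, r.Prime) (hTp : 3 ∈ T → p = 3) (hpT : p = 3 → 3 ∈ T) (S : Finset ℕ) :
    (∀ r ∈ S, r.Prime ∧ r ≠ p ∧ r ∉ T) →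
      ∀ a z : ℤ, Pr a z → a ≠ z → (∀ r ∈ T, ¬ (r : ℤ) ∣ a - z) →
      (p = 3 → (3 : ℤ) ∣ a * z) →
      ∃ a' z' : ℤ, Pr a' z' ∧ a' ≠ z' ∧ (∀ r ∈ S ∪ T, ¬ (r : ℤ) ∣ a' - z') ∧
        (p = 3 → (3 : ℤ) ∣ a' * z') := by
  induction S using Finset.induction_on_max with
  | empty =>
    intro _ a z h hne h1 hI
    exact ⟨a, z, h, hne, by rwa [Finset.empty_union], hI⟩
  | insert q S hlt ih =>
    intro hS a z h hne h1 hI
    obtain ⟨a, z, h, hne, h2, hI⟩ := ih (fun r hr => hS r (Finset.mem_insert_of_mem hr))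
      a z h hne h1 hI
    obtain ⟨hq, hqp, hqT⟩ := hS q (Finset.mem_insert_self _ _)
    obtain ⟨v, hv⟩ := exists_pow hq (sub_ne_zero.2 hne)
    obtain ⟨a', z', h3, h4, h5⟩ := one_more hp hC hq hqp (S ∪ T) (by
        intro r hr
        rcases Finset.mem_union.1 hr with hr | hr
        · exact (hS r (Finset.mem_insert_of_mem hr)).1
        · exact hT r hr) (by
        intro hr
        rcases Finset.mem_union.1 hr with hr | hr
        · exact lt_irrefl q (hlt q hr)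
        · exact hqT hr) (by
        intro hq2 h5
        rcases Finset.mem_union.1 h5 with h6 | h6
        · have := hlt 3 h6
          omega
        · exact hTp h6) v a z h hv h2 (fun _ => hI)
    rw [← Finset.insert_union] at h4
    refine ⟨a', z', h3, fun h6 => ?_, h4,
      fun h6 => h5 (Finset.mem_union_right _ (hpT h6)) h6⟩
    refine h4 q (Finset.mem_union_left _ (Finset.mem_insert_self _ _)) ?_
    rw [h6, sub_self]
    exact dvd_zero _

theorem sep_coprime {p m : ℕ} (hp : p.Prime) (hm0 : m ≠ 0)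
    {Pr : ℤ → ℤ → Prop} (hC : Cld p Pr) {a z : ℤ} (h : Pr a z) (hne : a ≠ z) :
    ∃ a' z' : ℤ, Pr a' z' ∧ IsCoprime (z' - a') (m : ℤ) := by
  have key : ∃ a' z' : ℤ, Pr a' z' ∧ ∀ r ∈ m.primeFactors, ¬ (r : ℤ) ∣ a' - z' := by
    have h0 : ∃ a' z' : ℤ, Pr a' z' ∧ ¬ (p : ℤ) ∣ a' - z' ∧ (p = 3 → (3 : ℤ) ∣ a' * z') := by
      obtain ⟨v, hv⟩ := exists_pow hp (sub_ne_zero.2 hne)
      obtain ⟨a, z, h, h1⟩ := one_p hp hC v a z h hv
      by_cases hp3 : p = 3
      · subst hp3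
        obtain ⟨a', z', h2, h3, h4⟩ := one_3 hC h (by exact_mod_cast h1)
        exact ⟨a', z', h2, by exact_mod_cast h3, fun _ => h4⟩
      · exact ⟨a, z, h, h1, fun h2 => (hp3 h2).elim⟩
    obtain ⟨a, z, h, h1, hI⟩ := h0
    obtain ⟨a', z', h3, -, h5, -⟩ := sep hp hC {p} (fun r hr => Finset.mem_singleton.1 hr ▸ hp)
      (fun h6 => (Finset.mem_singleton.1 h6).symm) (fun h6 => Finset.mem_singleton.2 h6.symm)
      (m.primeFactors.erase p) (fun r hr => ⟨Nat.prime_of_mem_primeFactors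
        (Finset.mem_of_mem_erase hr), Finset.ne_of_mem_erase hr,
        fun h6 => Finset.ne_of_mem_erase hr (Finset.mem_singleton.1 h6)⟩)
      a z h (fun h6 => h1 (by rw [h6, sub_self]; exact dvd_zero _))
      (fun r hr => Finset.mem_singleton.1 hr ▸ h1) hI
    refine ⟨a', z', h3, fun r hr => h5 r ?_⟩
    by_cases hrp : r = p
    · exact Finset.mem_union_right _ (Finset.mem_singleton.2 hrp)
    · exact Finset.mem_union_left _ (Finset.mem_erase.2 ⟨hrp, hr⟩)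
  obtain ⟨a, z, h, hS⟩ := key
  refine ⟨a, z, h, ?_⟩
  rw [Int.isCoprime_iff_gcd_eq_one]
  by_contra h1
  obtain ⟨q, hq, hqd⟩ := Nat.exists_prime_and_dvd h1
  have h2 : (q : ℤ) ∣ z - a := (Int.natCast_dvd_natCast.2 hqd).trans (Int.gcd_dvd_left ..)
  have h3 : (q : ℤ) ∣ (m : ℤ) := (Int.natCast_dvd_natCast.2 hqd).trans (Int.gcd_dvd_right ..)
  refine hS q (Nat.mem_primeFactors.2 ⟨hq, Int.natCast_dvd_natCast.1 h3, hm0⟩) ?_
  rw [← neg_sub]
  exact h2.neg_right

end Pool.Agent.U259.KQ
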