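import Pool.Agent.U259.KQ.Rec

/-!
# A direct factor of `A ≀ C_p`
-/

set_option autoImplicit false
set_option linter.unusedSectionVars false

open scoped Classical BigOperators

noncomputable section

namespace Pool.Agent.U259.KQ

open Pool.Agent.Y63.NV
open Pool.Agent.Y63.AWC (numDefectZero)
open Pool.Agent.N20.KB
open Pool.Agent.N85.WM (Wr shiftHom uno uno_class)
open Pool.Agent.Q90.WR (altK)
open Pool.Agent.U259.KR (altK_prod dz_prod)

theorem altK_iso {p : ℕ} [Fact p.Prime] {G H : Type} [Group G] [Group H] [Finite G] [Finite H]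
    (φ : G ≃* H) : altK p G = altK p H := by
  obtain ⟨red⟩ := exists_red p (AlgebraicClosure (ZMod p))
  rw [← aB_uno red, ← aB_uno red, ← aB_iso red φ uno_class]
  congr 1
  funext x
  unfold uno
  simp

variable {q : ℕ} [hq : Fact q.Prime] {A : Type} [CommGroup A]

/-- the product of the components -/
def prodHom (q : ℕ) [Fact q.Prime] (A : Type) [CommGroup A] : Wr q A →* A where
  toFun x :=
    have : NeZero q := ⟨(Fact.out : q.Prime).ne_zero⟩
    ∏ i : ZMod q, x.left i
  map_one' := by simp
  map_mul' x y := by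
    have : NeZero q := ⟨(Fact.out : q.Prime).ne_zero⟩
    change ∏ i : ZMod q, (x * y).left i = (∏ i : ZMod q, x.left i) * ∏ i : ZMod q, y.left i
    have h1 : ∀ i, (x * y).left i = x.left i * y.left (i - x.right.toAdd) := fun i => rfl
    simp only [h1]
    rw [Finset.prod_mul_distrib]
    congr 1
    exact Fintype.prod_equiv (Equiv.subRight x.right.toAdd) _ _ fun i => rfl

/-- the diagonal elements -/
def diagHom (q : ℕ) (A : Type) [CommGroup A] : A →* Wr q A :=
  (SemidirectProduct.inl : (ZMod q → A) →* Wr q A).comp (Pi.constMonoidHom (ZMod q) A)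

theorem diag_comm (a : A) (x : Wr q A) : diagHom q A a * x = x * diagHom q A a := by
  refine SemidirectProduct.ext ?_ ?_
  · funext i
    have h1 : (diagHom q A a * x).left i = a * x.left (i - (1 : Multiplicative (ZMod q)).toAdd) :=
      rfl
    have h2 : (x * diagHom q A a).left i = x.left i * a := rfl
    rw [h1, h2, toAdd_one, sub_zero, mul_comm]
  · have h1 : (diagHom q A a * x).right = 1 * x.right := rfl
    have h2 : (x * diagHom q A a).right = x.right * 1 := rfl
    rw [h1, h2, one_mul, mul_one]

theorem prod_diag (a : A) : prodHom q A (diagHom q A a) = a ^ q := by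
  have : NeZero q := ⟨hq.out.ne_zero⟩
  change ∏ i : ZMod q, a = a ^ q
  rw [Finset.prod_const, Finset.card_univ, ZMod.card]

/-- the homomorphism `(h, a) ↦ h · (a, …, a)` -/
def splitHom (q : ℕ) [Fact q.Prime] (A : Type) [CommGroup A] : (prodHom q A).ker × A →* Wr q A where
  toFun x := (x.1 : Wr q A) * diagHom q A x.2
  map_one' := by simp
  map_mul' x y := by
    change ((x.1 : Wr q A) * y.1) * diagHom q A (x.2 * y.2) =
      ((x.1 : Wr q A) * diagHom q A x.2) * ((y.1 : Wr q A) * diagHom q A y.2)
    rw [map_mul]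
    calc ((x.1 : Wr q A) * y.1) * (diagHom q A x.2 * diagHom q A y.2) =
        (x.1 : Wr q A) * ((y.1 : Wr q A) * diagHom q A x.2) * diagHom q A y.2 := by
          simp only [mul_assoc]
      _ = (x.1 : Wr q A) * (diagHom q A x.2 * (y.1 : Wr q A)) * diagHom q A y.2 := by
          rw [diag_comm]
      _ = _ := by simp only [mul_assoc]

/-- `A ≀ C_q = H × A` if `q` does not divide the order of `A` -/
def split [Finite A] (h : ¬ q ∣ Nat.card A) : (prodHom q A).ker × A ≃* Wr q A := by
  refine MulEquiv.ofBijective (splitHom q A) ⟨?_, ?_⟩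
  · rw [injective_iff_map_eq_one]
    rintro ⟨x, a⟩ hx
    change (x : Wr q A) * diagHom q A a = 1 at hx
    have h1 := congrArg (prodHom q A) hx
    rw [map_mul, map_one, prod_diag, (show prodHom q A (x : Wr q A) = 1 from x.2), one_mul] at h1
    have hco : (Nat.card A).Coprime q :=
      ((Nat.Prime.coprime_iff_not_dvd hq.out).2 h).symm
    have h2 : a = 1 := by
      refine (powCoprime hco).injective ?_
      rw [powCoprime_apply, powCoprime_apply, h1, one_pow]
    subst h2
    rw [map_one, mul_one] at hx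
    exact Prod.ext (Subtype.ext hx) rfl
  · intro w
    have hco : (Nat.card A).Coprime q :=
      ((Nat.Prime.coprime_iff_not_dvd hq.out).2 h).symm
    obtain ⟨a, ha⟩ := (powCoprime hco).surjective (prodHom q A w)
    rw [powCoprime_apply] at ha
    refine ⟨⟨⟨w * (diagHom q A a)⁻¹, ?_⟩, a⟩, ?_⟩
    · rw [MonoidHom.mem_ker, map_mul, map_inv, prod_diag, ha, mul_inv_cancel]
    · change w * (diagHom q A a)⁻¹ * diagHom q A a = w
      rw [inv_mul_cancel_right]

/-- the numbers for the factor `H` -/
theorem factor {p : ℕ} [hp : Fact p.Prime] (n : ℕ) [NeZero n] (h : ¬ p ∣ n) :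
    (p : ℤ) * altK p (prodHom p (Multiplicative (ZMod n))).ker = (n : ℤ) ^ (p - 1) - 1 ∧
    (numDefectZero p (prodHom p (Multiplicative (ZMod n))).ker : ℤ) =
      altK p (prodHom p (Multiplicative (ZMod n))).ker := by
  have h0 : Nat.card (Multiplicative (ZMod n)) = n := by
    rw [Nat.card_congr Multiplicative.toAdd, Nat.card_zmod]
  have e := split (q := p) (A := Multiplicative (ZMod n)) (by rwa [h0])
  have _f1 := Fintype.ofFinite (prodHom p (Multiplicative (ZMod n))).ker
  have _f2 := Fintype.ofFinite (Multiplicative (ZMod n))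
  obtain ⟨c1, c2⟩ := cyc (p := p) n h
  have e1 := altK_rec (p := p) p (Multiplicative (ZMod n))
  have e2 := dz_rec (p := p) p (Multiplicative (ZMod n))
  rw [if_pos rfl] at e1 e2
  rw [← altK_iso e, altK_prod, c1] at e1
  rw [← Pool.Agent.Y63.AWC.numDefectZero_congr e, dz_prod, Nat.cast_mul, c2] at e2
  have hn0 : (n : ℤ) ≠ 0 := by exact_mod_cast NeZero.ne n
  have hp1 : (n : ℤ) ^ p = n ^ (p - 1) * n := by
    rw [← pow_succ, Nat.sub_add_cancel hp.out.one_le]
  rw [hp1] at e1 e2
  constructor
  · refine mul_right_cancel₀ hn0 ?_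
    linear_combination e1
  · have hp0 : (p : ℤ) ≠ 0 := by exact_mod_cast hp.out.ne_zero
    refine mul_right_cancel₀ (mul_ne_zero hp0 hn0) ?_
    linear_combination e2 - e1

end Pool.Agent.U259.KQ
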