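import Pool.Agent.U259.KQ.Scl
import Pool.Agent.U259.KQ.Fac

/-!
# The values of the error term of the Knörr–Robinson conjecture
-/

set_option autoImplicit false
set_option linter.unusedSectionVars false

open scoped Classical BigOperators

noncomputable section

namespace Pool.Agent.U259.KQ

open Pool.Agent.Y63.KR (KRC)
open Pool.Agent.Y63.AWC (numDefectZero)
open Pool.Agent.N85.WM (Wr)
open Pool.Agent.Q90.WR (altK)
open Pool.Agent.U259.KR (E E_eq altK_prod dz_prod krc_iff)

variable {p : ℕ} [hp : Fact p.Prime]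

/-- the pairs of the two sides of the conjecture -/
def Prs (p : ℕ) (X : ∀ (G : Type) [Group G], Prop) (a z : ℤ) : Prop :=
  ∃ (G : Type) (_ : Group G) (_ : Finite G), X G ∧ altK p G = a ∧ (numDefectZero p G : ℤ) = z

theorem prs_cld (X : ∀ (G : Type) [Group G], Prop)
    (hc : ∀ (n : ℕ) [NeZero n], ¬ p ∣ n → X (Multiplicative (ZMod n)))
    (hm : ∀ (G K : Type) [Group G] [Group K] [Finite G] [Finite K], X G → X K → X (G × K))
    (hw : ∀ (q : ℕ) [Fact q.Prime] (G : Type) [Group G] [Finite G], X G → X (Wr q G))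
    (hf : p = 3 → ∀ (G H K : Type) [Group G] [Group H] [Group K] [Finite K],
      Nonempty (G × H ≃* K) → X K → X G) :
    Cld p (Prs p X) where
  cyc n hn h := by
    have : NeZero n := ⟨hn.ne'⟩
    obtain ⟨h1, h2⟩ := cyc (p := p) n h
    exact ⟨Multiplicative (ZMod n), inferInstance, inferInstance, hc n h, h1, h2⟩
  mul := by
    rintro a z a' z' ⟨G, _, _, h1, rfl, rfl⟩ ⟨K, _, _, h2, rfl, rfl⟩
    have := Fintype.ofFinite G
    have := Fintype.ofFinite K
    refine ⟨G × K, inferInstance, inferInstance, hm G K h1 h2, altK_prod G K, ?_⟩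
    rw [dz_prod]
    push_cast
    rfl
  wr := by
    rintro q hq hqp a z ⟨G, _, _, h1, rfl, rfl⟩
    have : Fact q.Prime := ⟨hq⟩
    have e1 := altK_rec (p := p) q G
    have e2 := dz_rec (p := p) q G
    rw [if_neg hqp] at e1 e2
    exact ⟨_, _, ⟨Wr q G, inferInstance, inferInstance, hw q G h1, rfl, rfl⟩, e1, e2⟩
  wrp := by
    rintro a z ⟨G, _, _, h1, rfl, rfl⟩
    have e1 := altK_rec (p := p) p G
    have e2 := dz_rec (p := p) p G
    rw [if_pos rfl] at e1 e2
    exact ⟨_, _, ⟨Wr p G, inferInstance, inferInstance, hw p G h1, rfl, rfl⟩, e1, e2⟩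

  fac := by
    intro hp3 n hn h
    subst hp3
    have : NeZero n := ⟨hn.ne'⟩
    have h0 : Nat.card (Multiplicative (ZMod n)) = n := by
      rw [Nat.card_congr Multiplicative.toAdd, Nat.card_zmod]
    obtain ⟨h1, h2⟩ := factor (p := 3) n h
    refine ⟨_, ⟨(prodHom 3 (Multiplicative (ZMod n))).ker, inferInstance, inferInstance, ?_, rfl,
      h2⟩, by exact_mod_cast h1⟩
    exact hf rfl _ _ _ ⟨split (q := 3) (A := Multiplicative (ZMod n)) (by rwa [h0])⟩
      (hw 3 _ (hc n h))

/-- **all or nothing** -/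
theorem dichotomy (X : ∀ (G : Type) [Group G], Prop)
    (hc : ∀ (n : ℕ) [NeZero n], ¬ p ∣ n → X (Multiplicative (ZMod n)))
    (hm : ∀ (G K : Type) [Group G] [Group K] [Finite G] [Finite K], X G → X K → X (G × K))
    (hw : ∀ (q : ℕ) [Fact q.Prime] (G : Type) [Group G] [Finite G], X G → X (Wr q G))
    (hf : p = 3 → ∀ (G H K : Type) [Group G] [Group H] [Group K] [Finite K],
      Nonempty (G × H ≃* K) → X K → X G)
    {m : ℕ} (hm0 : m ≠ 0) {G : Type} [Group G] [Finite G] (hG : X G)
    (hE : E p G ≠ 0) (r : ℤ) :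
    ∃ (H : Type) (_ : Group H) (_ : Finite H), X H ∧ (m : ℤ) ∣ E p H - r := by
  obtain ⟨a, z, ⟨H, _, _, h1, h2, h3⟩, h4⟩ := all_residues hp.out hm0
    (prs_cld (p := p) X hc hm hw hf) (a := altK p G) (z := numDefectZero p G)
    ⟨G, inferInstance, inferInstance, hG, rfl, rfl⟩ (fun h => hE (by rw [E_eq, h, sub_self])) r
  refine ⟨H, inferInstance, inferInstance, h1, ?_⟩
  rw [E_eq, h2, h3]
  exact h4

/-- the recursion for the error term -/
theorem E_rec (q : ℕ) [hq : Fact q.Prime] (G : Type) [Group G] [Finite G] :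
    (q : ℤ) * E p (Wr q G) = (numDefectZero p G : ℤ) ^ q - (numDefectZero p G - E p G) ^ q +
      (if q = p then -1 else (q : ℤ) ^ 2 - 1) * E p G := by
  have e1 := altK_rec (p := p) q G
  have e2 := dz_rec (p := p) q G
  have e3 : (numDefectZero p G : ℤ) - E p G = altK p G := by
    rw [E_eq]
    ring
  rw [e3, E_eq, E_eq]
  linear_combination e2 - e1

/-- the error term of the iterated wreath products -/
def EN (p q : ℕ) [NeZero q] : ℕ → (G : Type) → [Group G] → ℤ
  | 0, G, _ => E p G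
  | j + 1, G, _ => EN p q j (Wr q G)

theorem E_step (q : ℕ) [hq : Fact q.Prime] (k : ℕ) (G : Type) [Group G] [Finite G] :
    (q : ℤ) ^ (k + 1) ∣ E p G ↔ (q : ℤ) ∣ E p G ∧ (q : ℤ) ^ k ∣ E p (Wr q G) := by
  have e1 := altK_rec (p := p) q G
  have e2 := dz_rec (p := p) q G
  constructor
  · intro h
    refine ⟨(dvd_pow_self _ (Nat.succ_ne_zero k)).trans h, ?_⟩
    have h1 : (q : ℤ) ^ (k + 1) ∣ (q : ℤ) * E p (Wr q G) := by
      rw [E_rec]
      refine dvd_add ?_ (h.mul_left _)
      refine h.trans ?_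
      have h2 := sub_dvd_pow_sub_pow (numDefectZero p G : ℤ) (numDefectZero p G - E p G) q
      rwa [sub_sub_cancel] at h2
    rw [pow_succ'] at h1
    exact (mul_dvd_mul_iff_left (by exact_mod_cast hq.out.ne_zero)).1 h1
  · rintro ⟨h1, h2⟩
    have key : ∀ j : ℕ, j ≤ k → (q : ℤ) ^ (j + 1) ∣ E p G := by
      intro j
      induction j with
      | zero =>
        intro _
        rwa [zero_add, pow_one]
      | succ j ih =>
        intro hj
        have h3 := ih (by omega)
        have h4 : (q : ℤ) ^ (j + 1) ∣ E p (Wr q G) := (pow_dvd_pow _ hj).trans h2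
        refine Pool.Agent.U259.WQ.diff_arith hq.out (Nat.succ_le_succ (Nat.zero_le j))
          (a := if q = p then -1 else (q : ℤ) ^ 2 - 1) ?_ e2 e1 h3 h4
        split_ifs
        · exact Or.inl rfl
        · exact Or.inr rfl
    exact key k le_rfl

theorem E_tower (q : ℕ) [hq : Fact q.Prime] : ∀ (a : ℕ) (G : Type) [Group G] [Finite G],
    (q : ℤ) ^ a ∣ E p G ↔ ∀ j < a, (q : ℤ) ∣ EN p q j G := by
  intro a
  induction a with
  | zero =>
    intro G _ _
    simp
  | succ a ih =>
    intro G _ _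
    rw [E_step, ih (Wr q G)]
    constructor
    · rintro ⟨h1, h2⟩ j hj
      rcases j with _ | j
      · exact h1
      · exact h2 j (by omega)
    · intro h
      exact ⟨h 0 (Nat.succ_pos a), fun j hj => h (j + 1) (by omega)⟩

theorem E_zero (q : ℕ) [hq : Fact q.Prime] (G : Type) [Group G] [Finite G] :
    E p G = 0 ↔ ∀ j, (q : ℤ) ∣ EN p q j G := by
  constructor
  · intro h j
    refine (E_tower (p := p) q (j + 1) G).1 ?_ j (Nat.lt_succ_self j)
    rw [h]
    exact dvd_zero _
  · intro h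
    by_contra h1
    obtain ⟨v, hv⟩ := exists_pow hq.out h1
    exact hv ((E_tower (p := p) q (v + 1) G).2 fun j _ => h j)

end Pool.Agent.U259.KQ
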