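import Pool.Agent.U259.WQ.Unb
import Pool.Agent.U259.KR.Dyn

/-!
# The recursions for the two sides of the Knörr–Robinson conjecture
-/

set_option autoImplicit false
set_option linter.unusedSectionVars false

open scoped Classical BigOperators

noncomputable section

namespace Pool.Agent.U259.KQ

open Pool.Agent.Y63.NV
open Pool.Agent.Y63.KR
open Pool.Agent.Y63.AWC (IsIrreducibleCharacter numRegularClasses numWeights numDefectZero)
open Pool.Agent.N20.KB
open Pool.Agent.N85.WM (Wr wrF IsIdem uno uno_class uno_idem wrF_uno block_uno)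
open Pool.Agent.Q90.WR (altK)
open Pool.Agent.U259.WD (Sd)
open Pool.Agent.U259.WQ (kr kr_eq sd0 sd0_rec tot_rec uno_single)
open Pool.Agent.U259.KR (E E_eq altK_prod dz_prod)

variable {p : ℕ} [hp : Fact p.Prime]

theorem kr_E (Γ : Type) [Group Γ] [Finite Γ] : kr p Γ = - E p Γ := by
  unfold kr
  rw [alternatingSum_sub (fun H : Subgroup Γ => (numRegularClasses p H : ℤ))
    (fun H : Subgroup Γ => (numWeights p H : ℤ)), altSum_weights, E_eq, neg_sub]
  congr 1
  have e1 : (fun H : Subgroup Γ => (Nat.card (ConjClasses H) : ℤ)) =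
      fun H : Subgroup Γ => (numFixed 1 H : ℤ) := funext fun H => by rw [numFixed_one]
  have e2 : (fun H : Subgroup Γ => (numFixedRegular p 1 H : ℤ)) =
      fun H : Subgroup Γ => (numRegularClasses p H : ℤ) := funext fun H => by
    have : numFixedRegular p 1 H = numRegularClasses p H := by
      unfold numFixedRegular numRegularClasses
      refine Nat.card_congr (Equiv.subtypeEquivRight fun C => ?_)
      refine exists_congr fun x => and_congr_right fun _ => ?_
      rw [pow_one]
      exact ⟨fun h => h.2, fun h => ⟨IsConj.refl x, h⟩⟩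
    rw [this]
  unfold altK
  rw [e1, galois 1, e2]

theorem sd0_uno {F : Type} [Field F] [IsAlgClosed F] [CharP F p]
    (red : integralClosure ℤ ℂ →+* F) (Γ : Type) [Group Γ] [Finite Γ] :
    Sd p red 0 Γ (uno F Γ) 1 = numDefectZero p Γ := by
  rw [sd0 red uno_class, uno_single,
    Pool.Agent.Y63.NV.B532.nw_one p red (⊥ : Subgroup Γ) _ rfl,
    Pool.Agent.Y63.AWC.numDefectZero_congr QuotientGroup.quotientBot]

theorem aB_uno {F : Type} [Field F] [IsAlgClosed F] [CharP F p]
    (red : integralClosure ℤ ℂ →+* F) (Γ : Type) [Group Γ] [Finite Γ] :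
    aB red p Γ (uno F Γ) 1 = altK p Γ := by
  have h1 := kr_eq (p := p) red Γ
  rw [sd0_uno, kr_E, E_eq] at h1
  linarith

/-- the recursion for the alternating sum of the class numbers -/
theorem altK_rec (q : ℕ) [hq : Fact q.Prime] (G : Type) [Group G] [Finite G] :
    (q : ℤ) * altK p (Wr q G) = altK p G ^ q +
      (if q = p then -1 else (q : ℤ) ^ 2 - 1) * altK p G := by
  have : NeZero q := ⟨hq.out.ne_zero⟩
  obtain ⟨red⟩ := exists_red p (AlgebraicClosure (ZMod p))
  have h := tot_rec (p := p) (q := q) red (G := G) (e := uno (AlgebraicClosure (ZMod p)) G)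
    uno_idem
  rw [wrF_uno, aB_uno, aB_uno] at h
  exact h

/-- the recursion for the number of characters of defect zero -/
theorem dz_rec (q : ℕ) [hq : Fact q.Prime] (G : Type) [Group G] [Finite G] :
    (q : ℤ) * numDefectZero p (Wr q G) = (numDefectZero p G : ℤ) ^ q +
      (if q = p then -1 else (q : ℤ) ^ 2 - 1) * numDefectZero p G := by
  have : NeZero q := ⟨hq.out.ne_zero⟩
  obtain ⟨red⟩ := exists_red p (AlgebraicClosure (ZMod p))
  have h := sd0_rec (p := p) red q (G := G) (e := uno (AlgebraicClosure (ZMod p)) G)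
    uno_idem
  rw [wrF_uno, sd0_uno, sd0_uno] at h
  exact h

/-- `p'`-groups -/
theorem altK_coprime (K : Type) [Group K] [Finite K] (h : ¬ p ∣ Nat.card K) :
    altK p K = Nat.card (ConjClasses K) := by
  unfold altK
  rw [alternatingSum_single]
  · have h1 := Pool.Agent.U259.KR.card_conjClasses_congr (Subgroup.topEquiv (G := K))
    exact_mod_cast h1
  · intro σ hσ hne
    exfalso
    obtain ⟨P, hP⟩ := hne
    apply hσ.ne_bot P hP
    have h1 := hσ.isPGroup P hP
    obtain ⟨n, hn⟩ := IsPGroup.iff_card.mp h1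
    rcases Nat.eq_zero_or_pos n with h2 | h2
    · rw [h2, pow_zero] at hn
      exact Subgroup.card_eq_one.mp hn
    · exfalso
      apply h
      refine dvd_trans ?_ (Subgroup.card_subgroup_dvd_card P)
      rw [hn]
      exact dvd_pow_self p h2.ne'

theorem dz_coprime (K : Type) [Group K] [Finite K] (h : ¬ p ∣ Nat.card K) :
    (numDefectZero p K : ℤ) = altK p K := by
  obtain ⟨red⟩ := exists_red p (AlgebraicClosure (ZMod p))
  rw [← aB_uno red]
  unfold aB
  rw [alternatingSum_single]
  · have h1 := knum_iso (F := AlgebraicClosure (ZMod p)) red (Subgroup.topEquiv (G := K))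
      (f := uno _ K) uno_class 1
    have h2 : (fun x : (⊤ : Subgroup K) => uno (AlgebraicClosure (ZMod p)) K x) =
        fun x : (⊤ : Subgroup K) => uno (AlgebraicClosure (ZMod p)) K (Subgroup.topEquiv x) := rfl
    rw [h2, h1]
    unfold Knum numDefectZero
    congr 1
    refine Nat.card_congr (Equiv.subtypeEquivRight fun χ => ?_)
    refine and_congr_right fun hχ => ?_
    have h3 : centralValue red χ (uno (AlgebraicClosure (ZMod p)) K) = 1 :=
      block_uno (Pool.Agent.Y930.NV.cvh _ red K χ hχ)
    refine iff_of_true ?_ h3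
    obtain ⟨n, h4, -, h5⟩ := Pool.Agent.U259.WP.dg_le (p := p) hχ
    refine ⟨n, h4, ?_⟩
    have h6 : (Nat.card K).factorization p = 0 := Nat.factorization_eq_zero_of_not_dvd h
    omega
  · intro σ hσ hne
    exfalso
    obtain ⟨P, hP⟩ := hne
    apply hσ.ne_bot P hP
    have h1 := hσ.isPGroup P hP
    obtain ⟨n, hn⟩ := IsPGroup.iff_card.mp h1
    rcases Nat.eq_zero_or_pos n with h2 | h2
    · rw [h2, pow_zero] at hn
      exact Subgroup.card_eq_one.mp hn
    · exfalso
      apply h
      refine dvd_trans ?_ (Subgroup.card_subgroup_dvd_card P)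
      rw [hn]
      exact dvd_pow_self p h2.ne'

theorem cyc (n : ℕ) [NeZero n] (h : ¬ p ∣ n) :
    altK p (Multiplicative (ZMod n)) = n ∧ (numDefectZero p (Multiplicative (ZMod n)) : ℤ) = n := by
  have h0 : Nat.card (Multiplicative (ZMod n)) = n := by
    rw [Nat.card_congr Multiplicative.toAdd, Nat.card_zmod]
  have h1 := altK_coprime (p := p) (Multiplicative (ZMod n)) (by rwa [h0])
  have h2 := dz_coprime (p := p) (Multiplicative (ZMod n)) (by rwa [h0])
  have h3 : Nat.card (ConjClasses (Multiplicative (ZMod n))) = n := by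
    rw [← Nat.card_congr (ConjClasses.mkEquiv (α := Multiplicative (ZMod n))), h0]
  rw [h2, h1, h3]
  exact ⟨rfl, rfl⟩

end Pool.Agent.U259.KQ
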