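import Pool.Agent.U259.KQ.Ari

/-!
# Multiplication by all integers modulo `m`
-/

set_option autoImplicit false

open scoped BigOperators

namespace Pool.Agent.U259.KQ

theorem lifts {p m : ℕ} (hm0 : m ≠ 0) (hpm : p ∣ m) (hp1 : p ≠ 1) {Pr : ℤ → ℤ → Prop}
    (hC : Cld p Pr) {h' : ℕ} (hco : h'.Coprime m) (hh : Pr (p * h') (p * h')) {a z : ℤ}
    (h : Pr a z) : ∃ a' z' : ℤ, Pr a' z' ∧ (m : ℤ) ∣ a' - p * a ∧ (m : ℤ) ∣ z' - p * z := by
  obtain ⟨u, w, huw⟩ := Nat.isCoprime_iff_coprime.2 hco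
  have hm0' : (m : ℤ) ≠ 0 := by exact_mod_cast hm0
  obtain ⟨c, hc⟩ : ∃ c : ℕ, (c : ℤ) = u % m :=
    ⟨(u % m).toNat, Int.toNat_of_nonneg (Int.emod_nonneg _ hm0')⟩
  have hcu : (m : ℤ) ∣ c * h' - 1 := by
    have h1 : (m : ℤ) ∣ u - u % m := Int.dvd_self_sub_emod
    obtain ⟨k, hk⟩ := h1
    rw [hc]
    refine ⟨-w - k * h', ?_⟩
    linear_combination huw - (h' : ℤ) * hk
  have hc2 : ¬ p ∣ c := by
    intro h1
    have h2 : (p : ℤ) ∣ c * h' - 1 := (Int.natCast_dvd_natCast.2 hpm).trans hcu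
    have h3 : (p : ℤ) ∣ c * h' := (Int.natCast_dvd_natCast.2 h1).mul_right _
    have h4 := dvd_sub h3 h2
    rw [sub_sub_cancel] at h4
    exact hp1 (Nat.dvd_one.1 (by exact_mod_cast h4))
  have hc0 : 0 < c := Nat.pos_of_ne_zero fun h1 => hc2 (h1 ▸ dvd_zero p)
  refine ⟨c * (p * h' * a), c * (p * h' * z),
    hC.scale c hc0 hc2 _ _ (hC.mul _ _ _ _ hh h), ?_, ?_⟩
  · have h4 : (c : ℤ) * (p * h' * a) - p * a = (c * h' - 1) * (p * a) := by ring
    rw [h4]
    exact hcu.mul_right _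
  · have h4 : (c : ℤ) * (p * h' * z) - p * z = (c * h' - 1) * (p * z) := by ring
    rw [h4]
    exact hcu.mul_right _

theorem coprime_of {h' m : ℕ} (h : ∀ r : ℕ, r.Prime → r ∣ m → ¬ r ∣ h') :
    h'.Coprime m := by
  by_contra h1
  obtain ⟨q, hq, hqd⟩ := Nat.exists_prime_and_dvd h1
  exact h q hq (hqd.trans (Nat.gcd_dvd_right _ _)) (hqd.trans (Nat.gcd_dvd_left _ _))

theorem exH {p m : ℕ} (hp : p.Prime) (hm0 : m ≠ 0)
    {Pr : ℤ → ℤ → Prop} (hC : Cld p Pr) :
    ∃ h' : ℕ, h'.Coprime m ∧ Pr (p * h') (p * h') := by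
  obtain ⟨e, M, hM, hmM⟩ := Nat.exists_eq_pow_mul_and_not_dvd hm0 p hp.ne_one
  have hrM : ∀ r : ℕ, r.Prime → r ∣ m → r ≠ p → r ∣ M := by
    intro r hr hrm hrp
    rw [hmM] at hrm
    rcases (Nat.Prime.dvd_mul hr).1 hrm with h1 | h1
    · exact absurd ((Nat.prime_dvd_prime_iff_eq hr hp).1 (hr.dvd_of_dvd_pow h1)) hrp
    · exact h1
  by_cases hp2 : p = 2
  · subst hp2
    have hco : M.Coprime 8 := by
      have : (8 : ℕ) = 2 ^ 3 := rfl
      rw [this]
      exact (Nat.Coprime.pow_right _ (((Nat.Prime.coprime_iff_not_dvd Nat.prime_two).2 hM).symm))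
    obtain ⟨n, hn1, hn2⟩ := Nat.chineseRemainder hco (M - 1) 5
    have hM0 : 0 < M := Nat.pos_of_ne_zero fun h => hM (h ▸ dvd_zero 2)
    have hn3 : M ∣ n + 1 := by
      have h1 := hn1.add_right 1
      rw [Nat.sub_add_cancel hM0] at h1
      exact (Nat.modEq_zero_iff_dvd).1 (h1.trans ((Nat.modEq_zero_iff_dvd).2 dvd_rfl))
    have hn4 : n % 8 = 5 := hn2
    obtain ⟨u, hu⟩ : ∃ u, n = 1 + 4 * (2 * u + 1) := ⟨n / 8, by omega⟩
    obtain ⟨A, Z, h1, h2, h3⟩ := hC.wrp _ _ (hC.cyc n (by omega) (by omega))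
    have hA : A = 2 * ((n * (2 * u + 1) : ℕ) : ℤ) := by
      have h4 : 2 * A = 2 * (2 * ((n * (2 * u + 1) : ℕ) : ℤ)) := by
        push_cast at h2
        rw [h2]
        have h5 : (n : ℤ) = 1 + 4 * (2 * u + 1) := by exact_mod_cast hu
        push_cast
        linear_combination (n : ℤ) * h5
      linarith
    have hZ : Z = A := by
      have h4 : (2 : ℤ) * Z = 2 * A := by
        push_cast at h2 h3
        rw [h2, h3]
      linarith
    rw [hZ, hA] at h1
    refine ⟨n * (2 * u + 1), coprime_of fun r hr hrm h4 => ?_, by exact_mod_cast h1⟩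
    by_cases hr2 : r = 2
    · subst hr2
      rcases (Nat.Prime.dvd_mul hr).1 h4 with h5 | h5 <;> omega
    · have h5 := (hrM r hr hrm hr2).trans hn3
      rcases (Nat.Prime.dvd_mul hr).1 h4 with h6 | h6
      · exact hr.one_lt.ne' (Nat.dvd_one.1 ((Nat.dvd_add_right h6).1 h5))
      · have h7 : r ∣ n + 1 - 4 * (2 * u + 1) := Nat.dvd_sub h5 (h6.mul_left 4)
        have h8 : n + 1 - 4 * (2 * u + 1) = 2 := by omega
        rw [h8] at h7
        exact hr2 ((Nat.prime_dvd_prime_iff_eq hr Nat.prime_two).1 h7)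
  by_cases hp3 : p = 3
  · subst hp3
    have hco : M.Coprime 27 := by
      have : (27 : ℕ) = 3 ^ 3 := rfl
      rw [this]
      exact (Nat.Coprime.pow_right _ (((Nat.Prime.coprime_iff_not_dvd Nat.prime_three).2 hM).symm))
    obtain ⟨n, hn1, hn2⟩ := Nat.chineseRemainder hco 0 10
    have hn4 : n % 27 = 10 := hn2
    obtain ⟨u, hu⟩ : ∃ u, n = 10 + 27 * u := ⟨n / 27, by omega⟩
    obtain ⟨A, h1, h2⟩ := hC.fac rfl n (by omega) (by omega)
    have hu' : (n : ℤ) = 10 + 27 * u := by exact_mod_cast hu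
    have hA : A = 3 * (((n + 1) * (1 + 3 * u) : ℕ) : ℤ) := by
      have h4 : 3 * A = 3 * (3 * (((n + 1) * (1 + 3 * u) : ℕ) : ℤ)) := by
        rw [h2]
        push_cast
        linear_combination ((n : ℤ) + 1) * hu'
      linarith
    rw [hA] at h1
    refine ⟨(n + 1) * (1 + 3 * u), coprime_of fun r hr hrm h4 => ?_, by exact_mod_cast h1⟩
    by_cases hr2 : r = 3
    · subst hr2
      rcases (Nat.Prime.dvd_mul hr).1 h4 with h5 | h5 <;> omega
    · have h6 : r ∣ n := (Nat.modEq_zero_iff_dvd).1 (hn1.of_dvd (hrM r hr hrm hr2))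
      have h7 : (r : ℤ) ∣ (n : ℤ) ^ 2 - 1 := by
        have h8 : (n : ℤ) ^ 2 - 1 = 9 * (((n + 1) * (1 + 3 * u) : ℕ) : ℤ) := by
          push_cast
          linear_combination ((n : ℤ) + 1) * hu'
        rw [h8]
        exact (Int.natCast_dvd_natCast.2 h4).mul_left _
      have h9 : (r : ℤ) ∣ (n : ℤ) ^ 2 := (Int.natCast_dvd_natCast.2 h6).pow two_ne_zero
      have h10 := dvd_sub h9 h7
      rw [sub_sub_cancel] at h10
      exact hr.one_lt.ne' (Nat.dvd_one.1 (by exact_mod_cast h10))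
  · have hp5 : 4 < p := by
      have h1 := hp.two_le
      by_contra h2
      have h3 : p = 4 := by omega
      subst h3
      revert hp
      decide
    have hp4 : (4 * M).Coprime (p ^ 2) := by
      refine Nat.Coprime.pow_right _ ((Nat.Prime.coprime_iff_not_dvd hp).2 ?_).symm
      rw [hp.dvd_mul]
      rintro (h1 | h1)
      · have := Nat.le_of_dvd (by norm_num) h1
        omega
      · exact hM h1
    obtain ⟨n, hn1, hn2⟩ := Nat.chineseRemainder hp4 (4 * M - 1) (p - 3)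
    have hM0 : 0 < M := Nat.pos_of_ne_zero fun h => hM (h ▸ dvd_zero p)
    have hn3 : 4 * M ∣ n + 1 := by
      have h1 := hn1.add_right 1
      rw [Nat.sub_add_cancel (by omega)] at h1
      exact (Nat.modEq_zero_iff_dvd).1 (h1.trans ((Nat.modEq_zero_iff_dvd).2 dvd_rfl))
    have hn5 : (4 : ℕ) ∣ n + 1 := (dvd_mul_right 4 M).trans hn3
    have hn6 : M ∣ n + 1 := (dvd_mul_left M 4).trans hn3
    have hn4 : n + 3 ≡ p [MOD p ^ 2] := by
      have h1 := hn2.add_right 3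
      rwa [Nat.sub_add_cancel (by omega)] at h1
    obtain ⟨w, hw⟩ : p ∣ n + 3 := by
      have h1 : n + 3 ≡ p [MOD p] := hn4.of_dvd (dvd_pow_self p two_ne_zero)
      exact (Nat.modEq_zero_iff_dvd).1 (h1.trans ((Nat.modEq_zero_iff_dvd).2 dvd_rfl))
    have hpw : ¬ p ∣ w := by
      rintro ⟨k, rfl⟩
      have h1 : p ≡ 0 [MOD p ^ 2] := by
        refine hn4.symm.trans ((Nat.modEq_zero_iff_dvd).2 ?_)
        rw [hw, sq]
        exact mul_dvd_mul_left _ (dvd_mul_right _ _)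
      have h2 := (Nat.modEq_zero_iff_dvd).1 h1
      have h3 := Nat.le_of_dvd hp.pos h2
      nlinarith [hp.two_le]
    have hpodd : ¬ 2 ∣ p := fun h1 => hp2 ((Nat.prime_dvd_prime_iff_eq Nat.prime_two hp).1 h1).symm
    obtain ⟨w', rfl⟩ : 2 ∣ w := by
      have h1 : 2 ∣ p * w := by
        rw [← hw]
        omega
      exact ((Nat.Prime.dvd_mul Nat.prime_two).1 h1).resolve_left hpodd
    have hpn : ¬ p ∣ n := by
      intro h1
      have h2 : p ∣ 3 := (Nat.dvd_add_right h1).1 ⟨_, hw⟩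
      have := Nat.le_of_dvd (by norm_num) h2
      omega
    obtain ⟨A, Z, h1, h2, h3⟩ := hC.wr 2 Nat.prime_two (Ne.symm hp2) _ _
      (hC.cyc n (by omega) hpn)
    have hw' : (n : ℤ) + 3 = p * (2 * w') := by exact_mod_cast hw
    have hA : A = p * ((n * w' : ℕ) : ℤ) := by
      have h4 : 2 * A = 2 * (p * ((n * w' : ℕ) : ℤ)) := by
        push_cast at h2
        rw [h2]
        push_cast
        linear_combination (n : ℤ) * hw'
      linarith
    have hZ : Z = A := by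
      have h4 : (2 : ℤ) * Z = 2 * A := by
        push_cast at h2 h3
        rw [h2, h3]
      linarith
    rw [hZ, hA] at h1
    refine ⟨n * w', coprime_of fun r hr hrm h4 => ?_, by exact_mod_cast h1⟩
    by_cases hrp : r = p
    · subst hrp
      rcases (Nat.Prime.dvd_mul hr).1 h4 with h5 | h5
      · exact hpn h5
      · exact hpw (h5.mul_left 2)
    · have h5 := (hrM r hr hrm hrp).trans hn6
      rcases (Nat.Prime.dvd_mul hr).1 h4 with h6 | h6
      · exact hr.one_lt.ne' (Nat.dvd_one.1 ((Nat.dvd_add_right h6).1 h5))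
      · have h7 : r ∣ n + 3 := by
          rw [hw]
          exact (h6.mul_left 2).mul_left p
        have h8 : r ∣ 2 := by
          have h9 : n + 3 = (n + 1) + 2 := by ring
          rw [h9] at h7
          exact (Nat.dvd_add_right h5).1 h7
        have h9 := (Nat.prime_dvd_prime_iff_eq hr Nat.prime_two).1 h8
        subst h9
        obtain ⟨k, rfl⟩ := h6
        have h10 : 4 ∣ n + 3 := by
          rw [hw]
          exact ⟨p * k, by ring⟩
        omega

theorem multiple {p m : ℕ} (hp : p.Prime) (hm0 : m ≠ 0)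
    {Pr : ℤ → ℤ → Prop} (hC : Cld p Pr) :
    ∀ k : ℕ, 0 < k → ∀ a z : ℤ, Pr a z →
      ∃ a' z' : ℤ, Pr a' z' ∧ (m : ℤ) ∣ a' - k * a ∧ (m : ℤ) ∣ z' - k * z := by
  by_cases hpm : p ∣ m
  · obtain ⟨h', hco, hh⟩ := exH hp hm0 hC
    intro k
    induction k using Nat.strong_induction_on with
    | _ k ih =>
      intro hk a z h
      by_cases h2 : p ∣ k
      · obtain ⟨j, rfl⟩ := h2
        have hj : 0 < j := Nat.pos_of_ne_zero fun h3 => by
          rw [h3, mul_zero] at hk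
          exact lt_irrefl 0 hk
        obtain ⟨a1, z1, h3, h4, h5⟩ := lifts hm0 hpm hp.ne_one hC hco hh h
        obtain ⟨a2, z2, h6, h7, h8⟩ := ih j (by nlinarith [hp.two_le]) hj a1 z1 h3
        refine ⟨a2, z2, h6, ?_, ?_⟩
        · have h9 : a2 - ((p * j : ℕ) : ℤ) * a = (a2 - j * a1) + j * (a1 - p * a) := by
            push_cast
            ring
          rw [h9]
          exact dvd_add h7 (h4.mul_left _)
        · have h9 : z2 - ((p * j : ℕ) : ℤ) * z = (z2 - j * z1) + j * (z1 - p * z) := by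
            push_cast
            ring
          rw [h9]
          exact dvd_add h8 (h5.mul_left _)
      · exact ⟨k * a, k * z, hC.scale k hk h2 a z h, by simp, by simp⟩
  · intro k hk a z h
    have hmp : m.Coprime p := ((Nat.Prime.coprime_iff_not_dvd hp).2 hpm).symm
    obtain ⟨n, hn1, hn2⟩ := Nat.chineseRemainder hmp k 1
    have hnp : ¬ p ∣ n := by
      intro h3
      have h4 : 1 ≡ 0 [MOD p] := hn2.symm.trans ((Nat.modEq_zero_iff_dvd).2 h3)
      exact hp.one_lt.ne' (Nat.dvd_one.1 ((Nat.modEq_zero_iff_dvd).1 h4))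
    have hn0 : 0 < n := Nat.pos_of_ne_zero fun h3 => hnp (h3 ▸ dvd_zero p)
    have h4 : (m : ℤ) ∣ n - k := Nat.modEq_iff_dvd.1 hn1.symm
    refine ⟨n * a, n * z, hC.scale n hn0 hnp a z h, ?_, ?_⟩
    · rw [← sub_mul]
      exact h4.mul_right _
    · rw [← sub_mul]
      exact h4.mul_right _

/-- **all residue classes occur** -/
theorem all_residues {p m : ℕ} (hp : p.Prime) (hm0 : m ≠ 0)
    {Pr : ℤ → ℤ → Prop} (hC : Cld p Pr) {a z : ℤ} (h : Pr a z) (hne : a ≠ z) (r : ℤ) :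
    ∃ a' z' : ℤ, Pr a' z' ∧ (m : ℤ) ∣ z' - a' - r := by
  obtain ⟨a, z, h, u, w, huw⟩ := sep_coprime hp hm0 hC h hne
  have h1 : (m : ℤ) ≠ 0 := by exact_mod_cast hm0
  obtain ⟨k, hk0, hk⟩ : ∃ k : ℕ, 0 < k ∧ (m : ℤ) ∣ k - r * u := by
    refine ⟨((r * u) % (m : ℤ)).toNat + m, by omega, ?_⟩
    have h2 := Int.toNat_of_nonneg (Int.emod_nonneg (r * u) h1)
    have h3 : (m : ℤ) ∣ r * u - (r * u) % (m : ℤ) := Int.dvd_self_sub_emod
    rw [Nat.cast_add, h2]
    have h4 : (r * u) % (m : ℤ) + (m : ℤ) - r * u =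
        (m : ℤ) - (r * u - (r * u) % (m : ℤ)) := by ring
    rw [h4]
    exact dvd_sub dvd_rfl h3
  obtain ⟨a', z', h3, h4, h5⟩ := multiple hp hm0 hC k hk0 a z h
  refine ⟨a', z', h3, ?_⟩
  have h6 : z' - a' - r = (z' - k * z) - (a' - k * a) + (k - r * u) * (z - a) -
      (m : ℤ) * (r * w) := by
    linear_combination r * huw
  rw [h6]
  exact dvd_sub (dvd_add (dvd_sub h5 h4) (hk.mul_right _)) (dvd_mul_right _ _)

end Pool.Agent.U259.KQ
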